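import Mathlib
import Pool.Agent.Work.MP_974d84_co_circ.Final

/-!
Every bridgeless graph with `n` vertices has circular flow number at most `6n/(n+2) < 6`.
-/

namespace Pool.Agent.Results.MP_974d84_co.CircularFlowBelowSix

open Finset

/-- A finite multigraph (loops and parallel edges allowed) is given by a nonempty finite vertex set
`V`, a finite edge set `E` and the two ends `s e`, `t e` of every edge `e`. It is bridgeless: no
vertex set `X` has exactly one edge with exactly one end in `X`. Then there is a real circulation
`f` (orient `e` from `s e` to `t e`; at every vertex inflow equals outflow) such that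
`1 ≤ |f e| ≤ 5 - 12 / (n + 2)` for every edge `e`, where `n` is the number of vertices. That is,
the circular flow number is at most `6 - 12 / (n + 2) = 6 n / (n + 2)`. -/
theorem result {V E : Type*} [Fintype V] [DecidableEq V] [Nonempty V] [Fintype E]
    (s t : E → V)
    (hbridgeless : ∀ X : Finset V, (univ.filter (fun e => ¬ (s e ∈ X ↔ t e ∈ X))).card ≠ 1) :
    ∃ f : E → ℝ,
      (∀ v, (∑ e, if s e = v then f e else 0) = ∑ e, if t e = v then f e else 0) ∧
      ∀ e, 1 ≤ |f e| ∧ |f e| ≤ 5 - 12 / ((Fintype.card V : ℝ) + 2) := by
  classical
  obtain ⟨f, hf, hb⟩ := Pool.Agent.Circ.bridgeless s t hbridgeless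
  refine ⟨f, fun v => ?_, hb⟩
  have h := hf v
  unfold Pool.Agent.Circ.dv at h
  rw [sum_sub_distrib] at h
  linarith

end Pool.Agent.Results.MP_974d84_co.CircularFlowBelowSix
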