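import Mathlib
import Pool.Agent.Work.MP_974d84_co_k5.HandInG
import Pool.Agent.Work.MP_974d84_co_k5.MgMain
import Pool.Agent.Work.MP_974d84_co_k5.MainG

/-!
The characteristic polynomials of cographic matroids of large cogirth.
-/

namespace Pool.Agent.Results.MP_974d84_co.CographicCogirth

/-- There is a number `g` with the following property. Let the vectors `A j` over `ZMod 2`, all of
them nonzero, represent a matroid which is cographic: there is a multigraph with the edges `j`,
with ends `s j` and `t j`, whose edge cuts are the linear dependencies of the vectors. For every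
set `X` of elements such that neither `X` nor `Xᶜ` spans the matroid let
`20 ≤ r X + r Xᶜ - r univ`, and let `X` contain at least `g` different vectors. Then the
characteristic polynomial is nonzero at every integer `k ≥ 5`. -/
theorem result : ∃ g : ℕ, ∀ (n m : ℕ) (A : Fin n → Fin m → ZMod 2), (∀ j, A j ≠ 0) →
    (∃ (p : ℕ) (s t : Fin n → Fin p), ∀ c : Fin n → ZMod 2,
      ∑ j, c j • A j = 0 ↔ ∃ S : Fin p → ZMod 2, ∀ j, c j = S (s j) + S (t j)) →
    (∀ X : Set (Fin n),
      Module.finrank (ZMod 2) (Submodule.span (ZMod 2) (A '' X)) <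
        Module.finrank (ZMod 2) (Submodule.span (ZMod 2) (Set.range A)) →
      Module.finrank (ZMod 2) (Submodule.span (ZMod 2) (A '' Xᶜ)) <
        Module.finrank (ZMod 2) (Submodule.span (ZMod 2) (Set.range A)) →
      20 + Module.finrank (ZMod 2) (Submodule.span (ZMod 2) (Set.range A)) ≤
        Module.finrank (ZMod 2) (Submodule.span (ZMod 2) (A '' X)) +
        Module.finrank (ZMod 2) (Submodule.span (ZMod 2) (A '' Xᶜ)) ∧
      g ≤ (A '' X).ncard) →
    ∀ k : ℕ, 5 ≤ k →
      (∑ X : Finset (Fin n), (-1 : ℤ) ^ X.card *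
        (k : ℤ) ^ (Module.finrank (ZMod 2) (Submodule.span (ZMod 2) (Set.range A)) -
          Module.finrank (ZMod 2) (Submodule.span (ZMod 2) (A '' (X : Set (Fin n)))))) ≠ 0 := by
  obtain ⟨g, hg⟩ := Pool.Agent.K5.Mat.matroid_five_g (κ := 21) (by norm_num)
    (Pool.Agent.K5.five_form (fun _ h _ h' => by
      obtain ⟨g, hg⟩ := Pool.Agent.K5.main_g h h'
      exact ⟨g, fun V _ _ G _ => hg G⟩) le_rfl)
  exact ⟨g, fun n m A h0 hc hv => hg n m A h0 hc fun X h1 h2 => ⟨by
    have := (hv X h1 h2).1
    omega, (hv X h1 h2).2⟩⟩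

end Pool.Agent.Results.MP_974d84_co.CographicCogirth
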