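import Mathlib
import Pool.Agent.Work.MP_974d84_co_k5.HandIn
import Pool.Agent.Work.MP_974d84_co_k5.MatFive
import Pool.Agent.Work.MP_974d84_co_k5.MainW
import Pool.Agent.Work.MP_974d84_co_k5.SmallThree

/-!
The characteristic polynomials of highly vertically connected cographic matroids.
-/

namespace Pool.Agent.Results.MP_974d84_co.CographicMatroids

/-- There is a number `k₀` with the following property. Let the vectors `A j` over `ZMod 2`, all of
them nonzero, represent a matroid which is cographic: there is a multigraph with the edges `j`,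
with ends `s j` and `t j`, whose edge cuts are the linear dependencies of the vectors. Let
`k₀ ≤ r X + r Xᶜ - r univ` for every set `X` of elements such that neither `X` nor `Xᶜ` spans the
matroid. Then the characteristic polynomial is nonzero at every integer `k ≥ 5`. -/
theorem result : ∃ k₀ : ℕ, ∀ (n m : ℕ) (A : Fin n → Fin m → ZMod 2), (∀ j, A j ≠ 0) →
    (∃ (p : ℕ) (s t : Fin n → Fin p), ∀ c : Fin n → ZMod 2,
      ∑ j, c j • A j = 0 ↔ ∃ S : Fin p → ZMod 2, ∀ j, c j = S (s j) + S (t j)) →
    (∀ X : Set (Fin n),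
      Module.finrank (ZMod 2) (Submodule.span (ZMod 2) (A '' X)) <
        Module.finrank (ZMod 2) (Submodule.span (ZMod 2) (Set.range A)) →
      Module.finrank (ZMod 2) (Submodule.span (ZMod 2) (A '' Xᶜ)) <
        Module.finrank (ZMod 2) (Submodule.span (ZMod 2) (Set.range A)) →
      k₀ + Module.finrank (ZMod 2) (Submodule.span (ZMod 2) (Set.range A)) ≤
        Module.finrank (ZMod 2) (Submodule.span (ZMod 2) (A '' X)) +
        Module.finrank (ZMod 2) (Submodule.span (ZMod 2) (A '' Xᶜ))) →
    ∀ k : ℕ, 5 ≤ k →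
      (∑ X : Finset (Fin n), (-1 : ℤ) ^ X.card *
        (k : ℤ) ^ (Module.finrank (ZMod 2) (Submodule.span (ZMod 2) (Set.range A)) -
          Module.finrank (ZMod 2) (Submodule.span (ZMod 2) (A '' (X : Set (Fin n)))))) ≠ 0 := by
  obtain ⟨k, hk⟩ := Pool.Agent.K5.near_four (fun _ h => Pool.Agent.K5.glue
    (Pool.Agent.K5.main_w h) fun G _ h3 h6 hbr => by
      obtain ⟨f, h1, h2, h4, h5⟩ := Pool.Agent.K5.small_three G h3 h6 hbr
      exact ⟨f, h1, h2, h4, fun u v huv => ⟨(h5 u v huv).1, by linarith [(h5 u v huv).2]⟩⟩)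
    1 one_pos
  exact Pool.Agent.K5.Mat.matroid_five ⟨k, fun V _ _ G _ h3 hS => (hk V G h3 hS).2⟩

end Pool.Agent.Results.MP_974d84_co.CographicMatroids
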