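import Mathlib
import Pool.Agent.Work.MP_974d84_co.Defs
import Pool.Agent.Work.MP_974d84_co_thin.Main2

/-!
Nowhere-zero 5-flows of cubic graphs of large cyclic edge connectivity whose vertex set can be
partitioned into few parts which induce graphs of edge expansion at least `c`.
-/

namespace Pool.Agent.Results.MP_974d84_co.ExpandingPieces

open MP974d84

/-- Let `0 < c ≤ 1` and let `G` be a finite cubic graph in which every edge cut with a cycle on
both sides has at least `k` edges. Let `P` be a partition of the vertex set such that every subset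
`X` with at most half of the vertices of a part `U` is joined by at least `c * |X|` edges to the
rest of `U`. If `exp 1000 ≤ c ^ 2 * k` and `P` has at most `(c ^ 2 * k) ^ (k / 1000)` parts, then
`G` has a nowhere-zero flow with values in `ZMod i` for every `i ≥ 5`. -/
theorem result (c : ℝ) (hc : 0 < c) (hc1 : c ≤ 1) (k : ℕ) {V : Type} [Fintype V] [DecidableEq V]
    (G : SimpleGraph V) [DecidableRel G.Adj] (h3 : G.IsRegularOfDegree 3)
    (hcyc : ∀ S : Finset V, ¬ (G.induce (S : Set V)).IsAcyclic →
      ¬ (G.induce ((Sᶜ : Finset V) : Set V)).IsAcyclic → k ≤ (G.interedges S Sᶜ).card)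
    (P : Finpartition (Finset.univ : Finset V))
    (hexp : ∀ U ∈ P.parts, ∀ X ⊆ U, 2 * X.card ≤ U.card →
      c * (X.card : ℝ) ≤ ((G.interedges X (U \ X)).card : ℝ))
    (hk : Real.exp 1000 ≤ c ^ 2 * k)
    (hP : (P.parts.card : ℝ) ≤ (c ^ 2 * (k : ℝ)) ^ ((k : ℝ) / 1000)) :
    ∀ i : ℕ, 5 ≤ i → HasNZFlow (ZMod i) G := by
  have hpos : (0 : ℝ) < c ^ 2 * k := lt_of_lt_of_le (Real.exp_pos _) hk
  let φ := P.parts.equivFin
  let l : V → Fin P.parts.card := fun v => φ ⟨P.part v, P.part_mem.2 (Finset.mem_univ v)⟩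
  have hl : ∀ (i : Fin P.parts.card) (v : V), l v = i ↔ v ∈ (φ.symm i).1 := by
    intro i v
    constructor
    · intro h
      rw [← h]
      simp only [l, Equiv.symm_apply_apply]
      exact P.mem_part (Finset.mem_univ v)
    · intro h
      rw [← φ.apply_symm_apply i]
      simp only [l]
      congr 1
      apply Subtype.ext
      exact P.part_eq_of_mem (φ.symm i).2 h
  refine Pool.Agent.Thin5.main2_explicit G h3 k P.parts.card c hc hc1 ?_ l ?_ hk ?_
  · intro S h1 h2
    rw [← Pool.Agent.Exp.dd_interedges]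
    exact hcyc S h1 h2
  · intro i X hX hX2
    have e1 : (Finset.univ.filter fun v => l v = i) = (φ.symm i).1 := by
      ext v
      rw [Finset.mem_filter, hl]
      simp
    rw [e1] at hX2
    have h1 := hexp _ (φ.symm i).2 X (fun v hv => (hl i v).1 (hX v hv)) hX2
    have e2 : (Finset.univ.filter fun p : V × V =>
        p.1 ∈ X ∧ p.2 ∉ X ∧ l p.2 = i ∧ G.Adj p.1 p.2) = G.interedges X ((φ.symm i).1 \ X) := by
      ext p
      rw [Finset.mem_filter, SimpleGraph.mem_interedges_iff, Finset.mem_sdiff, hl]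
      constructor
      · rintro ⟨-, a1, a2, a3, a4⟩; exact ⟨a1, ⟨a3, a2⟩, a4⟩
      · rintro ⟨a1, ⟨a3, a2⟩, a4⟩; exact ⟨Finset.mem_univ _, a1, a2, a3, a4⟩
    rw [e2]
    exact h1
  · rcases Nat.eq_zero_or_pos P.parts.card with h0 | h0
    · rw [h0]
      have h1 : 0 ≤ Real.log (c ^ 2 * k) := Real.log_nonneg
        ((Real.one_le_exp (by norm_num)).trans hk)
      simp only [Nat.cast_zero, Real.log_zero, mul_zero]
      positivity
    · have h1 := Real.log_le_log (by exact_mod_cast h0) hP
      rw [Real.log_rpow hpos] at h1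
      linarith

end Pool.Agent.Results.MP_974d84_co.ExpandingPieces
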