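import Mathlib
import Pool.Agent.Work.MP_974d84_co.Defs
import Pool.Agent.Work.MP_974d84_co_thin.Final
import Pool.Agent.Work.MP_974d84_co_iso.Final3

/-!
Nowhere-zero 5-flows of cubic graphs under an isoperimetric condition of polylogarithmic strength.
-/

namespace Pool.Agent.Results.MP_974d84_co.IsoperimetricFlow

open MP974d84

/-- The oddness: the least number of odd circuits in a 2-factor (a 2-regular spanning subgraph). -/
noncomputable def oddness {V : Type} (G : SimpleGraph V) : ℕ :=
  sInf {m | ∃ F : SimpleGraph V, F ≤ G ∧ (∀ v, (F.neighborSet v).ncard = 2) ∧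
    {c : F.ConnectedComponent | Odd c.supp.ncard}.ncard = m}

/-- Let `δ > 0`. There is a constant `C > 0` such that every finite cubic graph `G` of oddness `w`
has a nowhere-zero flow with values in `ZMod i` for every `i ≥ 5`, provided that every set `S` of
at most half of the vertices such that both `S` and its complement induce a graph with a cycle is
left by at least `C * min ((1 + log |S|) ^ (1 + δ)) (1 + log w)` edges. -/
theorem result (δ : ℝ) (hδ : 0 < δ) : ∃ C : ℝ, 0 < C ∧ ∀ (V : Type) [Fintype V] [DecidableEq V]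
    (G : SimpleGraph V) [DecidableRel G.Adj], G.IsRegularOfDegree 3 →
    (∀ S : Finset V, 2 * S.card ≤ Fintype.card V → ¬ (G.induce (S : Set V)).IsAcyclic →
      ¬ (G.induce ((Sᶜ : Finset V) : Set V)).IsAcyclic →
      C * min ((1 + Real.log S.card) ^ (1 + δ)) (1 + Real.log (oddness G)) ≤
        (G.interedges S Sᶜ).card) →
    ∀ i : ℕ, 5 ≤ i → HasNZFlow (ZMod i) G := by
  obtain ⟨C, hC, h⟩ := Pool.Agent.Iso5.main hδ
  refine ⟨max C 3, lt_max_of_lt_left hC, ?_⟩
  intro V _ _ G _ h3 hS
  classical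
  have hmin : ∀ (S : Finset V) (w : ℕ),
      0 ≤ min ((1 + Real.log S.card) ^ (1 + δ)) (1 + Real.log w) := fun S w =>
    le_min (Real.rpow_nonneg (by linarith [Real.log_natCast_nonneg S.card]) _)
      (by linarith [Real.log_natCast_nonneg w])
  have hiso : Pool.Agent.Iso5.Iso G δ (max C 3) (oddness G) := by
    intro S h1 h2 h4
    have h5 := hS S h1 h2 h4
    rwa [Pool.Agent.Exp.dd_interedges] at h5
  have hc3 : Pool.Agent.Exp.CycConn G 3 :=
    Pool.Agent.Iso5.iso_cyc hδ hiso (by push_cast; exact le_max_right _ _)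
  obtain ⟨F0, hF0, hF02⟩ := Pool.Agent.Thin5.exists_two_factor h3 le_rfl hc3
  obtain ⟨F, hF, hF2, hw⟩ := Nat.sInf_mem (s := {m | ∃ F : SimpleGraph V, F ≤ G ∧
    (∀ v, (F.neighborSet v).ncard = 2) ∧
    {c : F.ConnectedComponent | Odd c.supp.ncard}.ncard = m}) ⟨_, F0, hF0, hF02, rfl⟩
  refine h G h3 (oddness G) (fun S h1 h2 h4 => ?_) F hF hF2 hw.le
  exact le_trans (mul_le_mul_of_nonneg_right (le_max_left _ _) (hmin S _)) (hiso S h1 h2 h4)

end Pool.Agent.Results.MP_974d84_co.IsoperimetricFlow
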