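import Mathlib
import Pool.Agent.Work.MP_974d84_co.Defs
import Pool.Agent.Work.MP_974d84_co_k5.HandInG
import Pool.Agent.Work.MP_974d84_co_k5.MainG

/-!
Circular flows of cubic graphs of large girth.
-/

namespace Pool.Agent.Results.MP_974d84_co.LargeGirth

open MP974d84

/-- For all `κ ≥ 5` and `ε > 0` there is a number `g` with the following property. Let `G` be a
finite cubic graph, all of whose edge cuts with a cycle on both sides have at least `κ` edges. Let
the girth be at least `g`, or let all edge cuts with a cycle on both sides have at least `g`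
edges. Then `G` has a real circulation `f` with `1 ≤ |f| ≤ 4 κ / (κ - 4) - 1 + ε` on every edge
and, if `κ ≥ 21`, a nowhere-zero flow with values in `ZMod i` for every `i ≥ 5`. -/
theorem result (κ : ℕ) (hκ : 5 ≤ κ) (ε : ℝ) (hε : 0 < ε) : ∃ g : ℕ, ∀ (V : Type) [Fintype V]
    [DecidableEq V] (G : SimpleGraph V) [DecidableRel G.Adj], G.IsRegularOfDegree 3 →
    (∀ S : Finset V, ¬ (G.induce (S : Set V)).IsAcyclic →
      ¬ (G.induce ((Sᶜ : Finset V) : Set V)).IsAcyclic → κ ≤ (G.interedges S Sᶜ).card) →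
    ((g : ℕ∞) ≤ G.egirth ∨ ∀ S : Finset V, ¬ (G.induce (S : Set V)).IsAcyclic →
      ¬ (G.induce ((Sᶜ : Finset V) : Set V)).IsAcyclic → g ≤ (G.interedges S Sᶜ).card) →
    (∃ f : V → V → ℝ, (∀ u v, f u v = - f v u) ∧ (∀ v, ∑ u, f v u = 0) ∧
      (∀ u v, ¬ G.Adj u v → f u v = 0) ∧
      ∀ u v, G.Adj u v → 1 ≤ |f u v| ∧ |f u v| ≤ 4 * κ / (κ - 4) - 1 + ε) ∧
    (21 ≤ κ → ∀ i : ℕ, 5 ≤ i → HasNZFlow (ZMod i) G) :=
  Pool.Agent.K5.one_form (fun _ h _ h' => by
    obtain ⟨g, hg⟩ := Pool.Agent.K5.main_g h h'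
    exact ⟨g, fun V _ _ G _ => hg G⟩) κ hκ ε hε

end Pool.Agent.Results.MP_974d84_co.LargeGirth
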