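import Mathlib
import Pool.Agent.Work.Energy.Modular

/-!
Tutte's 5-flow conjecture: strength at least `5/3` gives `Z_5`-connectivity and nowhere-zero
5-flows; `2m`-edge-connected graphs have all modulo `2m` orientations.
-/

namespace Pool.Agent.Results.MP_974d84_co.ModularOrientations

open Finset

universe u w

/-- A finite multigraph (loops and parallel edges allowed) is given by its vertex set `V`, its edge
set `E` and the two ends `s e`, `t e` of every edge `e`.

Part 1. Let `τ > 0` be real and suppose that every partition of the vertex set into `c` nonempty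
classes (given by a labelling `p`) is crossed by at least `τ (c - 1)` edges, i.e. the strength is
at least `τ`. Then
(a) for every positive integer `k` with `k ≤ (k - 2) τ` the graph is `Z_k`-connected: for every
`β : V → ℤ` with sum divisible by `k` there is `f : E → {1, ..., k - 1}` whose net outflow at every
vertex `v` is congruent to `β v` modulo `k` (`k = 5`: strength at least `5/3`);
(b) for every positive integer `k` with `k ≤ (k - 2) τ` there is a nowhere-zero integer `k`-flow;
(c) for every positive integer `m ≤ τ` and every `x₀ : V → ℤ` with `x₀ v` congruent to the degree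
of `v` modulo 2 and sum divisible by `2 m` there is an orientation of the edges (`σ e = 1`: from
`s e` to `t e`, `σ e = -1`: from `t e` to `s e`) with outdegree minus indegree congruent to `x₀ v`
modulo `2 m` at every vertex `v`.

Part 2. The conclusion of (c) holds for every positive integer `m` and every multigraph in which
every nonempty proper vertex set is left by at least `2 m` edges. -/
theorem result {V : Type u} {E : Type w} [Fintype V] [DecidableEq V] [Fintype E] (s t : E → V) :
    (∀ τ : ℝ, 0 < τ →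
      (∀ p : V → ℕ, τ * (((univ.image p).card : ℝ) - 1) ≤
        ((univ.filter (fun e => p (s e) ≠ p (t e))).card : ℝ)) →
      (∀ k : ℕ, 0 < k → (k : ℝ) ≤ (k - 2) * τ →
        ∀ β : V → ℤ, (k : ℤ) ∣ ∑ v, β v →
          ∃ f : E → ℤ, (∀ e, 1 ≤ f e ∧ f e ≤ k - 1) ∧
            ∀ v, (k : ℤ) ∣
              ((∑ e, if s e = v then f e else 0) - ∑ e, if t e = v then f e else 0) - β v) ∧
      (∀ k : ℕ, 0 < k → (k : ℝ) ≤ (k - 2) * τ →
        ∃ f : E → ℤ,
          (∀ v, (∑ e, if s e = v then f e else 0) = ∑ e, if t e = v then f e else 0) ∧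
          ∀ e, 1 ≤ |f e| ∧ |f e| ≤ k - 1) ∧
      (∀ m : ℕ, 0 < m → (m : ℝ) ≤ τ →
        ∀ x₀ : V → ℤ,
          (∀ v, (2 : ℤ) ∣ x₀ v -
            ((univ.filter (fun e => s e = v)).card + (univ.filter (fun e => t e = v)).card)) →
          (2 * m : ℤ) ∣ ∑ v, x₀ v →
          ∃ σ : E → ℤ, (∀ e, σ e = 1 ∨ σ e = -1) ∧
            ∀ v, (2 * m : ℤ) ∣
              ((∑ e, if s e = v then σ e else 0) - ∑ e, if t e = v then σ e else 0) - x₀ v)) ∧
    (∀ m : ℕ, 0 < m →
      (∀ X : Finset V, X.Nonempty → X ≠ univ →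
        2 * m ≤ (univ.filter (fun e => ¬ (s e ∈ X ↔ t e ∈ X))).card) →
      ∀ x₀ : V → ℤ,
        (∀ v, (2 : ℤ) ∣ x₀ v -
          ((univ.filter (fun e => s e = v)).card + (univ.filter (fun e => t e = v)).card)) →
        (2 * m : ℤ) ∣ ∑ v, x₀ v →
        ∃ σ : E → ℤ, (∀ e, σ e = 1 ∨ σ e = -1) ∧
          ∀ v, (2 * m : ℤ) ∣
            ((∑ e, if s e = v then σ e else 0) - ∑ e, if t e = v then σ e else 0) - x₀ v) := by
  classical
  have hdeg : ∀ (x₀ : V → ℤ) (v : V),
      (2 : ℤ) ∣ x₀ v -
        ((univ.filter (fun e => s e = v)).card + (univ.filter (fun e => t e = v)).card) →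
      (2 : ℤ) ∣ x₀ v - Energy.netZ s t (fun _ => 1) v := by
    intro x₀ v h
    have h1 : Energy.netZ s t (fun _ => 1) v =
        ((univ.filter (fun e => s e = v)).card : ℤ) - (univ.filter (fun e => t e = v)).card := by
      simp [Energy.netZ]
    rw [h1]
    have h2 : x₀ v - (((univ.filter (fun e => s e = v)).card : ℤ)
          - (univ.filter (fun e => t e = v)).card)
        = (x₀ v - ((univ.filter (fun e => s e = v)).card + (univ.filter (fun e => t e = v)).card))
          + 2 * ((univ.filter (fun e => t e = v)).card : ℤ) := by ring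
    rw [h2]
    exact dvd_add h (dvd_mul_right 2 _)
  refine ⟨fun τ hτ hs => ?_, fun m hm hcut x₀ hpar hx₀ => ?_⟩
  · have hθ0 : (0 : ℝ) ≤ 1 / τ := by positivity
    have hθ : ∀ p : V → ℕ, ((univ.image p).card : ℝ) - 1 ≤
        1 / τ * ((univ.filter (fun e => p (s e) ≠ p (t e))).card : ℝ) := by
      intro p
      have := hs p
      rw [one_div, inv_mul_eq_div, le_div_iff₀ hτ, mul_comm]
      exact this
    refine ⟨fun k hk hkτ β hβ => ?_, fun k hk hkτ => ?_, fun m hm hmτ x₀ hpar hx₀ => ?_⟩
    · obtain ⟨f, hf, hfv⟩ := Energy.group_connected s t (1 / τ) hθ0 hθ hk (by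
        rw [mul_one_div, div_le_iff₀ hτ]
        exact hkτ) β hβ
      exact ⟨f, hf, hfv⟩
    · have hk2 : 2 ≤ k := by
        by_contra hlt
        push Not at hlt
        have h1 : (k : ℝ) ≤ 1 := by exact_mod_cast (by omega : k ≤ 1)
        have h2 : (0 : ℝ) < k := by exact_mod_cast hk
        have h3 : ((k : ℝ) - 2) * τ ≤ 0 := mul_nonpos_of_nonpos_of_nonneg (by linarith) hτ.le
        linarith
      have hk2' : (2 : ℝ) ≤ k := by exact_mod_cast hk2
      obtain ⟨f, hf, hb⟩ := Circ.nowhereZero_theta s t k hk2 (by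
        intro p
        have h1 := hs p
        have hc : (0 : ℝ) ≤ ((univ.filter (fun e => p (s e) ≠ p (t e))).card : ℝ) :=
          Nat.cast_nonneg _
        by_cases hp : (0 : ℝ) ≤ ((univ.image p).card : ℝ) - 1
        · calc (k : ℝ) * (((univ.image p).card : ℝ) - 1)
              ≤ ((k - 2) * τ) * (((univ.image p).card : ℝ) - 1) :=
                mul_le_mul_of_nonneg_right hkτ hp
            _ = (k - 2) * (τ * (((univ.image p).card : ℝ) - 1)) := by ring
            _ ≤ _ := mul_le_mul_of_nonneg_left h1 (by linarith)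
        · push Not at hp
          have h4 : (k : ℝ) * (((univ.image p).card : ℝ) - 1) ≤ 0 :=
            mul_nonpos_of_nonneg_of_nonpos (by linarith) hp.le
          have h5 : 0 ≤ ((k : ℝ) - 2) *
              ((univ.filter (fun e => p (s e) ≠ p (t e))).card : ℝ) :=
            mul_nonneg (by linarith) hc
          linarith)
      refine ⟨f, fun v => ?_, hb⟩
      have h := hf v
      rw [sum_sub_distrib] at h
      linarith
    · obtain ⟨σ, hσ, hσv⟩ := Energy.modular_orientation s t (1 / τ) hθ0 hθ hm (by
        rw [mul_one_div, div_le_iff₀ hτ]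
        linarith) x₀ (fun v => hdeg x₀ v (hpar v)) hx₀
      exact ⟨σ, hσ, hσv⟩
  · have hmR : (0 : ℝ) < m := by exact_mod_cast hm
    have hθ : ∀ p : V → ℕ, ((univ.image p).card : ℝ) - 1 ≤
        1 / (m : ℝ) * ((univ.filter (fun e => p (s e) ≠ p (t e))).card : ℝ) := by
      intro p
      have h := Circ.theta_of_cut s t (2 * m) (by omega) hcut p
      refine h.trans (mul_le_mul_of_nonneg_right ?_ (Nat.cast_nonneg _))
      have h1 : (2 : ℝ) / ((2 * m : ℕ) : ℝ) = 1 / m := by
        push_cast
        field_simp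
      rw [h1]
      have h2 : (1 : ℝ) - 1 / (Fintype.card V : ℝ) ≤ 1 := by
        have : (0 : ℝ) ≤ 1 / (Fintype.card V : ℝ) := by positivity
        linarith
      calc 1 / (m : ℝ) * (1 - 1 / (Fintype.card V : ℝ)) ≤ 1 / (m : ℝ) * 1 :=
            mul_le_mul_of_nonneg_left h2 (by positivity)
        _ = 1 / (m : ℝ) := mul_one _
    obtain ⟨σ, hσ, hσv⟩ := Energy.modular_orientation s t (1 / (m : ℝ)) (by positivity) hθ hm (by
      rw [mul_one_div, div_self hmR.ne']) x₀ (fun v => hdeg x₀ v (hpar v)) hx₀
    exact ⟨σ, hσ, hσv⟩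

end Pool.Agent.Results.MP_974d84_co.ModularOrientations
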