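import Mathlib
import Pool.Agent.Work.MP_974d84_co.Defs
import Pool.Agent.Work.MP_974d84_co_k5.HandIn
import Pool.Agent.Work.MP_974d84_co_k5.MainW
import Pool.Agent.Work.MP_974d84_co_k5.SmallThree

/-!
Circular flows of cubic graphs of large cyclic edge connectivity.
-/

namespace Pool.Agent.Results.MP_974d84_co.NearFour

open MP974d84

/-- For every `ε > 0` there is a number `k` such that every finite cubic graph `G`, all of whose
edge cuts with a cycle on both sides have at least `k` edges, has a real circulation `f` with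
`1 ≤ |f| ≤ 3 + ε` on every edge, and a nowhere-zero flow with values in `ZMod i` for every
`i ≥ 5`. -/
theorem result (ε : ℝ) (hε : 0 < ε) : ∃ k : ℕ, ∀ (V : Type) [Fintype V] [DecidableEq V]
    (G : SimpleGraph V) [DecidableRel G.Adj], G.IsRegularOfDegree 3 →
    (∀ S : Finset V, ¬ (G.induce (S : Set V)).IsAcyclic →
      ¬ (G.induce ((Sᶜ : Finset V) : Set V)).IsAcyclic → k ≤ (G.interedges S Sᶜ).card) →
    (∃ f : V → V → ℝ, (∀ u v, f u v = - f v u) ∧ (∀ v, ∑ u, f v u = 0) ∧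
      (∀ u v, ¬ G.Adj u v → f u v = 0) ∧ ∀ u v, G.Adj u v → 1 ≤ |f u v| ∧ |f u v| ≤ 3 + ε) ∧
    ∀ i : ℕ, 5 ≤ i → HasNZFlow (ZMod i) G :=
  Pool.Agent.K5.near_four (fun _ h => Pool.Agent.K5.glue (Pool.Agent.K5.main_w h)
    fun G _ h3 h6 hbr => by
      obtain ⟨f, h1, h2, h4, h5⟩ := Pool.Agent.K5.small_three G h3 h6 hbr
      exact ⟨f, h1, h2, h4, fun u v huv => ⟨(h5 u v huv).1, by linarith [(h5 u v huv).2]⟩⟩) ε hε

end Pool.Agent.Results.MP_974d84_co.NearFour
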